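import Pool.Agent.Run7.h60.AABdry

/-!
# Homeomorphisms between closed 4-manifolds which are almost affine at small scales

For every `K ≥ 1` there is `η > 0`, which depends only on `K`, with the following property. Let `M`
and `N` be closed smooth 4-manifolds (for example simply connected, with isomorphic intersection
forms), `d` any function on `M × M` (for example the distance of a Riemannian metric) and let
`g : M → N` be a homeomorphism. Suppose that every point `x` at which `g` is not a local
diffeomorphism has a smooth parametrization `A`, bi-Lipschitz with the constant `K` with respect to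
`d`, and smooth coordinates `B` around `g x` such that `h = B ∘ g ∘ A` is almost affine: for all `z`
near `0` and all small scales `r` there is a linear isomorphism `L`, which may depend on `z` and on
`r` in an arbitrary way, such that

`‖L⁻¹ (h (z + y) - h z) - y‖ ≤ η r` for all `y` with `‖y‖ ≤ r`.

Then every neighbourhood of the graph of `g` contains the graph of a diffeomorphism, homotopic to
`g` through maps with graphs in this neighbourhood. So `M` and `N` are diffeomorphic, by a
diffeomorphism which induces the same isomorphism of the intersection forms as `g` and which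
preserves the orientations if `g` does so. It is enough to have the hypothesis for the scales
`r = ε k` of one sequence `ε k → 0` (there is no condition on `h` at the scales between), if the
linear isomorphisms satisfy `‖L⁻¹‖ ‖L‖² ε k → 0`, uniformly near `0`.

The maps `L` are not close to one another and their condition numbers need not be bounded: `h` need
not be quasiconformal and need not be differentiable at any bad point, and it can be a spiral at
every bad point. The set of the bad points is arbitrary (it may be all of `M`).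

Method: on finitely many boxes `g` is mollified at the same small scale, in the coordinates of the
box, and these mollifications are interpolated one after the other in the coordinates of the target;
the derivatives which occur are `L (1 + E)` with one `L` and `‖E‖ < 1`, a convex condition.
-/

set_option autoImplicit false

open Set Filter Topology Metric Function
open scoped Manifold ContDiff

noncomputable section

namespace Pool.Agent.Results.MP_cb9bff_gt.AlmostAffine

/-- `ℝ⁴` -/
abbrev R4 : Type := EuclideanSpace ℝ (Fin 4)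

/-- closed smooth 4-manifolds -/
structure Closed4 where
  /-- the set of points -/
  pts : Type
  [top : TopologicalSpace pts]
  [chart : ChartedSpace R4 pts]
  smooth : IsManifold (𝓡 4) ∞ pts
  compact : CompactSpace pts
  t2 : T2Space pts

instance : CoeSort Closed4 Type := ⟨Closed4.pts⟩

instance (M : Closed4) : TopologicalSpace M := M.top

instance (M : Closed4) : ChartedSpace R4 M := M.chart

section defs

variable {M N : Type} [TopologicalSpace M] [ChartedSpace R4 M] [TopologicalSpace N]
  [ChartedSpace R4 N]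

/-- `f` is a local diffeomorphism (of class `C^∞`, with smooth inverse) at `x` -/
def LocDiff (f : M → N) (x : M) : Prop := IsLocalDiffeomorphAt (𝓡 4) (𝓡 4) ∞ f x

/-- `A` is a smooth parametrization of a neighbourhood of `x = A 0` in `M` -/
def IsParam (A : R4 → M) (x : M) : Prop := A 0 = x ∧ IsLocalDiffeomorphAt (𝓡 4) (𝓡 4) ∞ A 0

/-- `B` is a smooth coordinate system around `y` in `N` -/
def IsCoord (B : N → R4) (y : N) : Prop := IsLocalDiffeomorphAt (𝓡 4) (𝓡 4) ∞ B y

/-- `A` is bi-Lipschitz near `0` with the constant `K`, with respect to `d` -/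
def BiLipschitz (d : M → M → ℝ) (K : ℝ) (A : R4 → M) : Prop :=
  ∀ᶠ q : R4 × R4 in 𝓝 0, d (A q.1) (A q.2) ≤ K * ‖q.1 - q.2‖ ∧
    ‖q.1 - q.2‖ ≤ K * d (A q.1) (A q.2)

/-- On the ball of radius `r` about `z` the map `h` differs from an affine map with the linear part
`L` by at most `η r`, measured after applying the inverse of `L`. -/
def AffineOn (η : ℝ) (h : R4 → R4) (z : R4) (r : ℝ) (L : R4 ≃L[ℝ] R4) : Prop :=
  ∀ y : R4, ‖y‖ ≤ r → ‖L.symm (h (z + y) - h z) - y‖ ≤ η * r

/-- `h` is almost affine near `0`, with linear parts `L z r` which depend on the point `z` and on the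
scale `r`: either at all small scales `r`, or at the scales `ε k`, with
`‖L⁻¹‖ ‖L‖² ε k → 0`. -/
def AlmostAffine (η : ℝ) (ε : ℕ → ℝ) (h : R4 → R4) : Prop :=
  ∃ (ρ : ℝ) (L : R4 → ℝ → (R4 ≃L[ℝ] R4)), 0 < ρ ∧
    ((∀ᶠ r in 𝓝[>] (0 : ℝ), ∀ z : R4, ‖z‖ < ρ → AffineOn η h z r (L z r)) ∨
      ((∀ᶠ k in atTop, ∀ z : R4, ‖z‖ < ρ → AffineOn η h z (ε k) (L z (ε k))) ∧
        ∀ δ : ℝ, 0 < δ → ∀ᶠ k in atTop, ∀ z : R4, ‖z‖ < ρ →
          ‖((L z (ε k)).symm : R4 →L[ℝ] R4)‖ * ‖(L z (ε k) : R4 →L[ℝ] R4)‖ ^ 2 * ε k ≤ δ))

/-- `f` is almost affine at `x`, in a parametrization which is bi-Lipschitz with the constant `K` and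
in some coordinates of the target -/
def AlmostAffineAt (d : M → M → ℝ) (K η : ℝ) (ε : ℕ → ℝ) (f : M → N) (x : M) : Prop :=
  ∃ (A : R4 → M) (B : N → R4), IsParam A x ∧ IsCoord B (f x) ∧ BiLipschitz d K A ∧
    AlmostAffine η ε fun z => B (f (A z))

/-- `g` is homotopic to some diffeomorphism through maps with graphs contained in `O` -/
def DiffeoIn (O : Set (M × N)) (g : C(M, N)) : Prop :=
  ∃ Φ : Diffeomorph (𝓡 4) (𝓡 4) M N ∞, ContinuousMap.HomotopicWith g ⟨Φ, Φ.continuous⟩
    fun h => ∀ x, (x, h x) ∈ O

end defs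

/-- `g` is a limit of diffeomorphisms homotopic to it: every open neighbourhood `O` of its graph
contains the graph of a diffeomorphism, homotopic to `g` through maps with graphs in `O`. -/
def LimitOfDiffeomorphisms (M N : Closed4) (g : M ≃ₜ N) : Prop :=
  ∀ O : Set (M × N), IsOpen O → (∀ x, (x, g x) ∈ O) → DiffeoIn O ⟨g, g.continuous⟩

theorem aux (X Y : Type) [TopologicalSpace X] [TopologicalSpace Y] [ChartedSpace R4 X]
    [ChartedSpace R4 Y] [CompactSpace X] [T2Space X] (hX1 : IsManifold (𝓡 4) ∞ X)
    (hY1 : IsManifold (𝓡 4) ∞ Y) (g : X ≃ₜ Y) (d : X → X → ℝ) {K : ℝ} (hK : 1 ≤ K)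
    {ε : ℕ → ℝ} (hε : ∀ k, 0 < ε k) (hε0 : Tendsto ε atTop (𝓝 0))
    (hg : ∀ x, LocDiff g x ∨ AlmostAffineAt d K (Run7.h60.Sc.eta 4 K) ε g x)
    (O : Set (X × Y)) (hO : IsOpen O) (hgO : ∀ x, (x, g x) ∈ O) :
    DiffeoIn O ⟨g, g.continuous⟩ := by
  have hx : ∀ x, Pool.Agent.Y522.LD 4 g x ∨
      Run7.h60.Sc.AffAt (n := 4) d K (Run7.h60.Sc.eta 4 K) ε g x := by
    intro x
    rcases hg x with h | ⟨A, B, ⟨h1, h2⟩, h3, h4, ρ, L, hρ, h5⟩
    · exact Or.inl h
    · right
      have hA : Run7.h60.Sc.Alm (Run7.h60.Sc.eta 4 K) ε fun z => B (g (A z)) := by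
        refine ⟨ρ, L, hρ, ?_⟩
        rcases h5 with h5 | h5
        · exact Or.inr h5
        · exact Or.inl h5
      obtain ⟨ρ', L', g1, g2, g3⟩ := hA.aff hε hε0 (Run7.h60.Sc.eta_pos hK).le
        (Run7.h60.Sc.eta_le hK)
      exact ⟨A, B, h1, h2, h3, h4, ρ', L', g1, g2, g3⟩
  have hB : IsCompact {x | ¬ Pool.Agent.Y522.LD 4 g x} := by
    apply IsClosed.isCompact
    rw [← isOpen_compl_iff, isOpen_iff_mem_nhds]
    intro x hx'
    have h1 : Pool.Agent.Y522.LD 4 g x := by
      by_contra h
      exact hx' h
    filter_upwards [h1.eventually] with y hy h2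
    exact h2 hy
  obtain ⟨f', C, -, hb, hl, hH⟩ := Run7.h60.Sc.affMain' g d hK hε hε0 O hx hB hO hgO
  have hloc : IsLocalDiffeomorph (𝓡 4) (𝓡 4) ∞ f' := hl
  refine ⟨hloc.diffeomorphOfBijective hb, ?_⟩
  obtain ⟨H⟩ := hH
  exact ⟨{ H.toHomotopy with prop' := fun t x => (H.prop' t x).1 }⟩

/-- **Almost affine homeomorphisms of closed 4-manifolds are limits of diffeomorphisms**, homotopic
to them through maps with graphs in a given neighbourhood of the graph. -/
theorem result (K : ℝ) (hK : 1 ≤ K) : ∃ η : ℝ, 0 < η ∧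
    ∀ (M N : Closed4) (d : M → M → ℝ) (ε : ℕ → ℝ), (∀ k, 0 < ε k) →
      Tendsto ε atTop (𝓝 0) → ∀ g : M ≃ₜ N,
      (∀ x, LocDiff g x ∨ AlmostAffineAt d K η ε g x) → LimitOfDiffeomorphisms M N g := by
  refine ⟨Run7.h60.Sc.eta 4 K, Run7.h60.Sc.eta_pos hK, fun M N d ε hε hε0 g hg O hO hgO => ?_⟩
  have := M.compact
  have := M.t2
  exact aux M N M.smooth N.smooth g d hK hε hε0 hg O hO hgO

end Pool.Agent.Results.MP_cb9bff_gt.AlmostAffine
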