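import Pool.Agent.Run7.h7.C1Ball

/-!
# Homeomorphisms between closed smooth 4-manifolds which are, in one of the two directions, of class
`C^1` and of corank at most one, or cone monotone, near every point

We consider closed smooth 4-manifolds (for instance two simply connected ones with isomorphic
intersection forms) and the homeomorphisms `g : M → N` which have one of the following properties at
every point `x` (the property may depend on the point):

* `g` is a local diffeomorphism at `x`, or cone monotone at `x`;
* `g` is of class `C^1` near `x`, and its derivative at `x` has rank at least three;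
* `g⁻¹` is of class `C^1` near `g x`, and its derivative at `g x` has rank at least three.

The members of the least class which contains these homeomorphisms and is closed under inverses,
compositions and limits are exactly the limits of diffeomorphisms. So two closed smooth 4-manifolds
which are related by a member of the class are diffeomorphic; the homeomorphisms between homeomorphic
simply connected manifolds which are not diffeomorphic (they exist by Donaldson and Freedman) all lie
outside the class.
-/

set_option autoImplicit false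

open Set Filter Topology Metric Function
open scoped Manifold ContDiff

noncomputable section

namespace Pool.Agent.Results.MP_cb9bff_gt.ClassC1CorankOne

/-- `ℝ⁴` -/
abbrev R4 : Type := EuclideanSpace ℝ (Fin 4)

/-- closed smooth 4-manifolds: compact Hausdorff spaces with a smooth structure (with charts in
`ℝ⁴`, so without boundary) -/
structure ClosedManifold where
  /-- the set of points -/
  pts : Type
  [top : TopologicalSpace pts]
  [chart : ChartedSpace R4 pts]
  smooth : IsManifold (𝓡 4) ∞ pts
  compact : CompactSpace pts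
  hausdorff : T2Space pts

instance : CoeSort ClosedManifold Type := ⟨ClosedManifold.pts⟩

instance (M : ClosedManifold) : TopologicalSpace M := M.top

instance (M : ClosedManifold) : ChartedSpace R4 M := M.chart

section defs

variable {M N : Type} [TopologicalSpace M] [TopologicalSpace N]
  [ChartedSpace R4 M] [ChartedSpace R4 N]

/-- `f` is a local diffeomorphism (of class `C^∞`, with smooth inverse) at `x` -/
def LocDiff (f : M → N) (x : M) : Prop := IsLocalDiffeomorphAt (𝓡 4) (𝓡 4) ∞ f x

/-- `f` is of class `C^1` near `x` -/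
def C1Near (f : M → N) (x : M) : Prop := ∀ᶠ y in 𝓝 x, ContMDiffAt (𝓡 4) (𝓡 4) 1 f y

/-- the derivative of `f` at `x`, as a linear map from `ℝ⁴` to `ℝ⁴` (in the preferred charts) -/
def der (f : M → N) (x : M) : R4 →L[ℝ] R4 := mfderiv (𝓡 4) (𝓡 4) f x

/-- the rank of a linear map -/
def rank (L : R4 →L[ℝ] R4) : ℕ := Module.finrank ℝ (LinearMap.range L.toLinearMap)

/-- `f` is of class `C^1` near `x`, and its derivative at `x` has rank at least three -/
def C1CorankOne (f : M → N) (x : M) : Prop := C1Near f x ∧ 3 ≤ rank (der f x)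

/-- `A` is a smooth parametrization of a neighbourhood of `x = A 0` in `M` -/
def IsParam (A : R4 → M) (x : M) : Prop := A 0 = x ∧ IsLocalDiffeomorphAt (𝓡 4) (𝓡 4) ∞ A 0

/-- `B` is a smooth coordinate system around `y` in `N` -/
def IsCoord (B : N → R4) (y : N) : Prop := IsLocalDiffeomorphAt (𝓡 4) (𝓡 4) ∞ B y

/-- For every direction `v` the increments of `h` near `0` in the directions near `v` lie in a
proper cone: there are `r > 0` and a linear functional `ℓ` with `r ‖h q - h p‖ < ℓ (h q - h p)` for
all `p`, `q` in the ball of radius `r` about `0` such that `‖q - p - t v‖ ≤ r t` for some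
`t > 0`. -/
def ConeIncrements (h : R4 → R4) : Prop :=
  ∀ v : R4, v ≠ 0 → ∃ (r : ℝ) (ℓ : R4 →L[ℝ] ℝ), 0 < r ∧ ∀ p q : R4, ‖p‖ ≤ r → ‖q‖ ≤ r →
    ∀ t : ℝ, 0 < t → ‖q - p - t • v‖ ≤ r * t → r * ‖h q - h p‖ < ℓ (h q - h p)

/-- `f` is cone monotone at `x`: it has increments in proper cones in some smooth coordinates around
`x` and around `f x`. -/
def ConeMonotone (f : M → N) (x : M) : Prop :=
  ∃ (A : R4 → M) (B : N → R4), IsParam A x ∧ IsCoord B (f x) ∧ ConeIncrements fun p => B (f (A p))

/-- the graph of `f` is contained in `O` -/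
def GraphIn (f : M → N) (O : Set (M × N)) : Prop := ∀ x, (x, f x) ∈ O

end defs

/-- The least class of homeomorphisms of closed smooth 4-manifolds which contains the following ones:
at every point `x`, `g` is a local diffeomorphism or cone monotone, or of class `C^1` and of corank
at most one, or its inverse is so at `g x`; and which is closed under inverses, compositions and
limits. -/
inductive Tame : (M N : ClosedManifold) → (M ≃ₜ N) → Prop
  | loc {M N : ClosedManifold} (g : M ≃ₜ N) :
      (∀ x, LocDiff g x ∨ ConeMonotone g x ∨ C1CorankOne g x ∨ C1CorankOne g.symm (g x)) →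
      Tame M N g
  | inverse {M N : ClosedManifold} (g : M ≃ₜ N) : Tame M N g → Tame N M g.symm
  | composition {M N P : ClosedManifold} (g : M ≃ₜ N) (h : N ≃ₜ P) :
      Tame M N g → Tame N P h → Tame M P (g.trans h)
  | limit {M N : ClosedManifold} (g : M ≃ₜ N) (h : Set (M × N) → (M ≃ₜ N)) :
      (∀ O, IsOpen O → GraphIn g O → GraphIn (h O) O) →
      (∀ O, IsOpen O → GraphIn g O → Tame M N (h O)) → Tame M N g

/-- `g` is a limit of diffeomorphisms: every open neighbourhood of its graph contains the graph of a
diffeomorphism. -/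
def LimitOfDiffeomorphisms (M N : ClosedManifold) (g : M ≃ₜ N) : Prop :=
  ∀ O : Set (M × N), IsOpen O → GraphIn g O →
    ∃ Φ : Diffeomorph (𝓡 4) (𝓡 4) M N ∞, GraphIn Φ O

theorem limit_symm {M N : ClosedManifold} (g : M ≃ₜ N) (hg : LimitOfDiffeomorphisms M N g) :
    LimitOfDiffeomorphisms N M g.symm := by
  intro O hO hgO
  obtain ⟨Φ, hΦ⟩ := hg (Prod.swap ⁻¹' O) (hO.preimage continuous_swap) (fun x => by
    have := hgO (g x)
    rw [g.symm_apply_apply] at this
    exact this)
  refine ⟨Φ.symm, fun y => ?_⟩
  have := hΦ (Φ.symm y)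
  rw [Φ.apply_symm_apply] at this
  exact this

theorem limit_trans {M N P : ClosedManifold} (g : M ≃ₜ N) (h : N ≃ₜ P)
    (hg : LimitOfDiffeomorphisms M N g) (hh : LimitOfDiffeomorphisms N P h) :
    LimitOfDiffeomorphisms M P (g.trans h) := by
  intro O hO hgO
  have c1 : Continuous fun z : N × P => ((g.symm z.1, z.2) : M × P) :=
    (g.symm.continuous.comp continuous_fst).prodMk continuous_snd
  obtain ⟨Ψ, hΨ⟩ := hh ((fun z : N × P => ((g.symm z.1, z.2) : M × P)) ⁻¹' O) (hO.preimage c1)
    (fun y => by
      have := hgO (g.symm y)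
      rw [Homeomorph.trans_apply, g.apply_symm_apply] at this
      exact this)
  have c2 : Continuous fun z : M × N => ((z.1, Ψ z.2) : M × P) :=
    continuous_fst.prodMk (Ψ.continuous.comp continuous_snd)
  obtain ⟨Φ, hΦ⟩ := hg ((fun z : M × N => ((z.1, Ψ z.2) : M × P)) ⁻¹' O) (hO.preimage c2)
    (fun x => by
      have := hΨ (g x)
      simp only [mem_preimage, g.symm_apply_apply] at this
      exact this)
  exact ⟨Φ.trans Ψ, hΦ⟩

theorem loc_aux (X Y : Type) [TopologicalSpace X] [TopologicalSpace Y] [T2Space X]
    [CompactSpace X] [ChartedSpace R4 X] [ChartedSpace R4 Y] [IsManifold (𝓡 4) ∞ X]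
    [IsManifold (𝓡 4) ∞ Y] (g : X ≃ₜ Y)
    (hc : ∀ x : X, LocDiff g x ∨ ConeMonotone g x ∨ C1CorankOne g x ∨ C1CorankOne g.symm (g x))
    (O : Set (X × Y)) (hO : IsOpen O) (hgO : GraphIn g O) :
    ∃ Φ : Diffeomorph (𝓡 4) (𝓡 4) X Y ∞, GraphIn Φ O := by
  refine Run7.h7.mixedClosed (n := 4) (by norm_num) X Y g (fun x => ?_) O hO hgO
  rcases hc x with h | ⟨A, B, ⟨h1, h2⟩, h3, h4⟩ | ⟨h1, h2⟩ | ⟨h1, h2⟩
  · exact Or.inl (Or.inl h)
  · exact Or.inl (Or.inr ⟨B, h3, A, h1, h2, h4⟩)
  · exact Or.inr (Or.inl ⟨h1.self_of_nhds, Nat.succ_le_succ h2⟩)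
  · exact Or.inr (Or.inr ⟨h1.self_of_nhds, Nat.succ_le_succ h2⟩)

theorem limit_of_tame {M N : ClosedManifold} (g : M ≃ₜ N) (hg : Tame M N g) :
    LimitOfDiffeomorphisms M N g := by
  induction hg with
  | @loc M N g hc =>
    have := M.smooth
    have := N.smooth
    have := M.compact
    have := M.hausdorff
    exact loc_aux M N g hc
  | inverse g _ ih => exact limit_symm g ih
  | composition g h _ _ ih1 ih2 => exact limit_trans g h ih1 ih2
  | limit g h h1 _ ih =>
    intro O hO hgO
    exact ih O hO hgO O hO (h1 O hO hgO)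

theorem tame_of_diffeo {M N : ClosedManifold} (Φ : Diffeomorph (𝓡 4) (𝓡 4) M N ∞) :
    Tame M N Φ.toHomeomorph :=
  Tame.loc _ fun x => Or.inl (Φ.isLocalDiffeomorph x)

theorem tame_of_limit {M N : ClosedManifold} (g : M ≃ₜ N) (hg : LimitOfDiffeomorphisms M N g) :
    Tame M N g := by
  classical
  refine Tame.limit g (fun O => if h : IsOpen O ∧ GraphIn g O then
    (Classical.choose (hg O h.1 h.2)).toHomeomorph else g) ?_ ?_
  · intro O hO hgO
    rw [dif_pos ⟨hO, hgO⟩]
    exact Classical.choose_spec (hg O hO hgO)
  · intro O hO hgO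
    rw [dif_pos ⟨hO, hgO⟩]
    exact tame_of_diffeo _

theorem result (M N : ClosedManifold) (g : M ≃ₜ N) :
    (Tame M N g ↔ LimitOfDiffeomorphisms M N g) ∧
      (Tame M N g → Nonempty (Diffeomorph (𝓡 4) (𝓡 4) M N ∞)) := by
  refine ⟨⟨limit_of_tame g, tame_of_limit g⟩, fun hg => ?_⟩
  obtain ⟨Φ, -⟩ := limit_of_tame g hg univ isOpen_univ (fun _ => mem_univ _)
  exact ⟨Φ⟩

end Pool.Agent.Results.MP_cb9bff_gt.ClassC1CorankOne
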