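import Pool.Agent.Run7.h575.MS6

/-!
# Homeomorphisms between closed 4-manifolds which are steady at small scales

For every `K ≥ 1` there is `a > 0`, which depends only on `K`, with the following property. Let `M`
and `N` be closed smooth 4-manifolds (for example simply connected, with isomorphic intersection
forms), `d` any function on `M × M` (for example the distance of a Riemannian metric), `ε k > 0` a
sequence which tends to `0` (as fast as one likes), and let `g : M → N` be a homeomorphism. Suppose
that every point `x` at which `g` is not a local diffeomorphism has a smooth parametrization `A`,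
bi-Lipschitz with the constant `K` with respect to `d`, and smooth coordinates `B` around `g x` such
that `h = B ∘ g ∘ A` is steady at the scales `ε k`: there are a step length `κ ∈ (0, 1]` and a
tolerance `δ > 0`, which depend on `x`, such that for all `z` near `0`, for the scales `r = ε k` with
`k` large and for every unit vector `v` there is a linear functional `ℓ` (which may depend on `z`,
`r` and `v` in an arbitrary way) with

* `|ℓ (h (z + y) - h z)| ≤ r` for `‖y‖ ≤ r`,
* `ℓ (h (z + y') - h (z + y)) ≥ a κ² r` for all `y`, `y'` in the ball of radius `r` with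
  `‖y' - y - κ r v‖ ≤ δ r`,
* `‖ℓ‖ ‖h (z + y) - h z‖² = o(r)` for `‖y‖ ≤ r`.

Then every neighbourhood of the graph of `g` contains the graph of a diffeomorphism, homotopic to
`g` through maps with graphs in this neighbourhood. So `M` and `N` are diffeomorphic, by a
diffeomorphism which induces the same isomorphism of the intersection forms as `g` and which
preserves the orientations if `g` does so.

So over steps of length `κ r` the increment of `ℓ ∘ h` need not be comparable with `κ r`: a bound
`a κ² r` for one small `κ` is enough, and there is no condition on shorter steps, nor on the scales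
between the numbers `ε k`. This holds for example (for a suitable `κ`) if `h` is bi-Lipschitz and the
derivatives of `h` on the ball of radius `r` about `z` belong to `L C`, where `C` is a fixed compact
convex set of invertible matrices and the linear isomorphism `L` depends on `z` and `r` in an
arbitrary way; or if, for an `L` which does not degenerate too fast, `‖L⁻¹ (h (z + y) - h z)‖ ≤ r` for
`‖y‖ ≤ r` and `⟨L⁻¹ (h p - h q), p - q⟩ ≥ c |p - q| ^ s r ^ (2 - s)` for `p`, `q` in this ball, where
`c > 0` and `s < 3`. Such a map `h` need not be close to an affine map at any scale, need not be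
differentiable at any bad point, and it can be a spiral at every bad point. The set of the bad points is arbitrary
(it may be all of `M`).

Method: on the finitely many boxes `g` is mollified at the same small scale, in the coordinates of the
box, and these mollifications are interpolated one after the other in the coordinates of the target.
The finite differences of a mollification over steps which are short compared with its radius, but
not infinitely short, control its derivative, in the coordinates of every other box; the resulting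
condition on the derivatives is convex.
-/

set_option autoImplicit false

open Set Filter Topology Metric Function
open scoped Manifold ContDiff

noncomputable section

namespace Pool.Agent.Results.MP_cb9bff_gt.SteadyAtSmallScales

/-- `ℝ⁴` -/
abbrev R4 : Type := EuclideanSpace ℝ (Fin 4)

/-- closed smooth 4-manifolds -/
structure Closed4 where
  /-- the set of points -/
  pts : Type
  [top : TopologicalSpace pts]
  [chart : ChartedSpace R4 pts]
  smooth : IsManifold (𝓡 4) ∞ pts
  compact : CompactSpace pts
  t2 : T2Space pts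

instance : CoeSort Closed4 Type := ⟨Closed4.pts⟩

instance (M : Closed4) : TopologicalSpace M := M.top

instance (M : Closed4) : ChartedSpace R4 M := M.chart

section defs

variable {M N : Type} [TopologicalSpace M] [ChartedSpace R4 M] [TopologicalSpace N]
  [ChartedSpace R4 N]

/-- `f` is a local diffeomorphism (of class `C^∞`, with smooth inverse) at `x` -/
def LocDiff (f : M → N) (x : M) : Prop := IsLocalDiffeomorphAt (𝓡 4) (𝓡 4) ∞ f x

/-- `A` is a smooth parametrization of a neighbourhood of `x = A 0` in `M` -/
def IsParam (A : R4 → M) (x : M) : Prop := A 0 = x ∧ IsLocalDiffeomorphAt (𝓡 4) (𝓡 4) ∞ A 0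

/-- `B` is a smooth coordinate system around `y` in `N` -/
def IsCoord (B : N → R4) (y : N) : Prop := IsLocalDiffeomorphAt (𝓡 4) (𝓡 4) ∞ B y

/-- `A` is bi-Lipschitz near `0` with the constant `K`, with respect to `d` -/
def BiLipschitz (d : M → M → ℝ) (K : ℝ) (A : R4 → M) : Prop :=
  ∀ᶠ q : R4 × R4 in 𝓝 0, d (A q.1) (A q.2) ≤ K * ‖q.1 - q.2‖ ∧
    ‖q.1 - q.2‖ ≤ K * d (A q.1) (A q.2)

/-- `h` is steady on the ball of radius `r` about `z` in the direction `v`, with the step length
`κ r`, the tolerance `δ r` and the slack `σ`: there is a linear functional `ℓ` such that `ℓ ∘ h`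
differs by at most `r` from its value at `z`, it increases by at least `a κ² r` along every step which
is close to `κ r v`, and the oscillation of `h` satisfies `‖ℓ‖ ‖h (z + y) - h z‖² ≤ σ r`. -/
def SteadyOn (a κ δ σ : ℝ) (h : R4 → R4) (z : R4) (r : ℝ) (v : R4) : Prop :=
  ∃ ℓ : R4 →L[ℝ] ℝ,
    (∀ y : R4, ‖y‖ ≤ r → |ℓ (h (z + y) - h z)| ≤ r ∧ ‖ℓ‖ * ‖h (z + y) - h z‖ ^ 2 ≤ σ * r) ∧
    ∀ y y' : R4, ‖y‖ ≤ r → ‖y'‖ ≤ r → ‖y' - y - (κ * r) • v‖ ≤ δ * r →
      a * κ ^ 2 * r ≤ ℓ (h (z + y') - h (z + y))

/-- `h` is steady near `0` at the scales `ε k`, in all directions, with a slack which tends to `0` -/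
def Steady (a : ℝ) (ε : ℕ → ℝ) (h : R4 → R4) : Prop :=
  ∃ ρ κ δ : ℝ, 0 < ρ ∧ 0 < κ ∧ κ ≤ 1 ∧ 0 < δ ∧ ∀ σ : ℝ, 0 < σ → ∀ᶠ k in atTop,
    ∀ z : R4, ‖z‖ < ρ → ∀ v : R4, ‖v‖ = 1 → SteadyOn a κ δ σ h z (ε k) v

/-- `f` is steady at `x`, in a parametrization which is bi-Lipschitz with the constant `K` and in
some coordinates of the target -/
def SteadyAt (d : M → M → ℝ) (K a : ℝ) (ε : ℕ → ℝ) (f : M → N) (x : M) : Prop :=
  ∃ (A : R4 → M) (B : N → R4), IsParam A x ∧ IsCoord B (f x) ∧ BiLipschitz d K A ∧
    Steady a ε fun z => B (f (A z))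

/-- `g` is homotopic to some diffeomorphism through maps with graphs contained in `O` -/
def DiffeoIn (O : Set (M × N)) (g : C(M, N)) : Prop :=
  ∃ Φ : Diffeomorph (𝓡 4) (𝓡 4) M N ∞, ContinuousMap.HomotopicWith g ⟨Φ, Φ.continuous⟩
    fun h => ∀ x, (x, h x) ∈ O

end defs

/-- `g` is a limit of diffeomorphisms homotopic to it: every open neighbourhood `O` of its graph
contains the graph of a diffeomorphism, homotopic to `g` through maps with graphs in `O`. -/
def LimitOfDiffeomorphisms (M N : Closed4) (g : M ≃ₜ N) : Prop :=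
  ∀ O : Set (M × N), IsOpen O → (∀ x, (x, g x) ∈ O) → DiffeoIn O ⟨g, g.continuous⟩

theorem aux (X Y : Type) [TopologicalSpace X] [TopologicalSpace Y] [ChartedSpace R4 X]
    [ChartedSpace R4 Y] [CompactSpace X] [T2Space X] (g : X ≃ₜ Y) (d : X → X → ℝ) {K : ℝ}
    (hK : 1 ≤ K) {ε : ℕ → ℝ} (hε : ∀ k, 0 < ε k) (hε0 : Tendsto ε atTop (𝓝 0))
    (hg : ∀ x, LocDiff g x ∨ SteadyAt d K (Run7.h575.MS.ac 4 K) ε g x)
    (O : Set (X × Y)) (hO : IsOpen O) (hgO : ∀ x, (x, g x) ∈ O) :
    DiffeoIn O ⟨g, g.continuous⟩ := by
  have hx : ∀ x, Pool.Agent.Y522.LD 4 g x ∨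
      Run7.h575.MS.StAt (n := 4) d K (Run7.h575.MS.ac 4 K) ε g x := by
    intro x
    rcases hg x with h | ⟨A, B, ⟨h1, h2⟩, h3, h4, h5⟩
    · exact Or.inl h
    · exact Or.inr ⟨A, B, h1, h2, h3, h4, h5⟩
  have hB : IsCompact {x | ¬ Pool.Agent.Y522.LD 4 g x} := by
    apply IsClosed.isCompact
    rw [← isOpen_compl_iff, isOpen_iff_mem_nhds]
    intro x hx'
    have h1 : Pool.Agent.Y522.LD 4 g x := by
      by_contra h
      exact hx' h
    filter_upwards [h1.eventually] with y hy h2
    exact h2 hy
  obtain ⟨f', C, -, hb, hl, hH⟩ := Run7.h575.MS.styMain' (by norm_num) g d hK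
    (Run7.h575.MS.ac_ge hK) (Run7.h575.MS.ac_gt hK) hε hε0 O hx hB hO hgO
  have hloc : IsLocalDiffeomorph (𝓡 4) (𝓡 4) ∞ f' := hl
  refine ⟨hloc.diffeomorphOfBijective hb, ?_⟩
  obtain ⟨H⟩ := hH
  exact ⟨{ H.toHomotopy with prop' := fun t x => (H.prop' t x).1 }⟩

/-- **Homeomorphisms of closed 4-manifolds which are steady at small scales are limits of
diffeomorphisms**, homotopic to them through maps with graphs in a given neighbourhood of the
graph. -/
theorem result (K : ℝ) (hK : 1 ≤ K) : ∃ a : ℝ, 0 < a ∧
    ∀ (M N : Closed4) (d : M → M → ℝ) (ε : ℕ → ℝ), (∀ k, 0 < ε k) →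
      Tendsto ε atTop (𝓝 0) → ∀ g : M ≃ₜ N,
      (∀ x, LocDiff g x ∨ SteadyAt d K a ε g x) → LimitOfDiffeomorphisms M N g := by
  refine ⟨Run7.h575.MS.ac 4 K, Run7.h575.MS.ac_pos hK, fun M N d ε hε hε0 g hg O hO hgO => ?_⟩
  have := M.compact
  have := M.t2
  exact aux M N g d hK hε hε0 hg O hO hgO

end Pool.Agent.Results.MP_cb9bff_gt.SteadyAtSmallScales
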