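import Pool.Agent.Run7.h7.QFam
import Pool.Agent.Run7.h7.C1Ball

/-!
# Homeomorphisms of closed smooth 4-manifolds with three coordinates of class `C^1`

Let `g : M → N` be a homeomorphism of closed smooth 4-manifolds (for instance one which realises an
isometry of the intersection forms of two simply connected manifolds). We assume that near every
point at which `g` is not a local diffeomorphism three of the four coordinates of `g` are of class
`C^1`, with independent derivatives, and that nothing is known about the fourth one (it is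
continuous). The coordinates may depend on the point: they are taken from a family of submersions
`q j : dom j → ℝ³` of class `C^1`, defined on open subsets of `N`, any two of which are at each common
point transversal or have the same fibres near this point (for instance the submersions which define
finitely many pairwise transversal foliations of dimension one). Points near which `g` is of class
`C^1` with a derivative of rank at least three are also allowed. Then `g` is a limit of
diffeomorphisms; in particular `M` and `N` are diffeomorphic.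

For example, `M` and `N` are diffeomorphic if there are maps `p : M → B` and `q : N → B` to a smooth
3-manifold `B` and a homeomorphism `g : M → N` over `B` which is a local diffeomorphism at every point
`x` such that `p` is not a submersion of class `C^1` at `x` or `q` is not one at `g x`.
-/

set_option autoImplicit false

open Set Filter Topology Metric Function
open scoped Manifold ContDiff

noncomputable section

namespace Pool.Agent.Results.MP_cb9bff_gt.TransverselyC1

/-- `ℝ⁴` -/
abbrev R4 : Type := EuclideanSpace ℝ (Fin 4)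

/-- `ℝ³` -/
abbrev R3 : Type := EuclideanSpace ℝ (Fin 3)

/-- closed smooth 4-manifolds: compact Hausdorff spaces with a smooth structure (with charts in
`ℝ⁴`, so without boundary) -/
structure ClosedManifold where
  /-- the set of points -/
  pts : Type
  [top : TopologicalSpace pts]
  [chart : ChartedSpace R4 pts]
  smooth : IsManifold (𝓡 4) ∞ pts
  compact : CompactSpace pts
  hausdorff : T2Space pts

instance : CoeSort ClosedManifold Type := ⟨ClosedManifold.pts⟩

instance (M : ClosedManifold) : TopologicalSpace M := M.top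

instance (M : ClosedManifold) : ChartedSpace R4 M := M.chart

/-- smooth 3-manifolds (without boundary) -/
structure Manifold3 where
  /-- the set of points -/
  pts : Type
  [top : TopologicalSpace pts]
  [chart : ChartedSpace R3 pts]
  smooth : IsManifold (𝓡 3) ∞ pts

instance : CoeSort Manifold3 Type := ⟨Manifold3.pts⟩

instance (B : Manifold3) : TopologicalSpace B := B.top

instance (B : Manifold3) : ChartedSpace R3 B := B.chart

section defs

variable {M N B : Type} [TopologicalSpace M] [TopologicalSpace N] [TopologicalSpace B]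
  [ChartedSpace R4 M] [ChartedSpace R4 N] [ChartedSpace R3 B]

/-- `f` is a local diffeomorphism (of class `C^∞`, with smooth inverse) at `x` -/
def LocDiff (f : M → N) (x : M) : Prop := IsLocalDiffeomorphAt (𝓡 4) (𝓡 4) ∞ f x

/-- `f` is of class `C^1` near `x` -/
def C1Near (f : M → N) (x : M) : Prop := ∀ᶠ y in 𝓝 x, ContMDiffAt (𝓡 4) (𝓡 4) 1 f y

/-- the derivative of `f` at `x`, as a linear map from `ℝ⁴` to `ℝ⁴` (in the preferred charts) -/
def der (f : M → N) (x : M) : R4 →L[ℝ] R4 := mfderiv (𝓡 4) (𝓡 4) f x

/-- the rank of a linear map -/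
def rank (L : R4 →L[ℝ] R4) : ℕ := Module.finrank ℝ (LinearMap.range L.toLinearMap)

/-- `f` is of class `C^1` near `x`, and its derivative at `x` has rank at least three -/
def C1CorankOne (f : M → N) (x : M) : Prop := C1Near f x ∧ 3 ≤ rank (der f x)

/-- the derivative at `y` of a map to a 3-manifold, as a linear map from `ℝ⁴` to `ℝ³` (in the
preferred charts) -/
def der3 (q : N → B) (y : N) : R4 →L[ℝ] R3 := mfderiv (𝓡 4) (𝓡 3) q y

/-- `q` is of class `C^1` near `y`, and its derivative at `y` is surjective -/
def Submersion (q : N → B) (y : N) : Prop :=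
  (∀ᶠ z in 𝓝 y, ContMDiffAt (𝓡 4) (𝓡 3) 1 q z) ∧ Surjective (der3 q y)

/-- no nonzero vector is in the kernels of both derivatives at `y` -/
def Transversal (q q' : N → R3) (y : N) : Prop :=
  ∀ v : R4, der3 q y v = 0 → der3 q' y v = 0 → v = 0

/-- near `y`, the map `q'` is constant on the fibres of `q` -/
def SameFibres (q q' : N → R3) (y : N) : Prop :=
  ∃ W ∈ 𝓝 y, ∀ z ∈ W, ∀ z' ∈ W, q z = q z' → q' z = q' z'

/-- the graph of `f` is contained in `O` -/
def GraphIn (f : M → N) (O : Set (M × N)) : Prop := ∀ x, (x, f x) ∈ O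

end defs

/-- a family of submersions of class `C^1` from open subsets of `N` to `ℝ³`, any two of which are at
every common point transversal or have the same fibres near this point -/
structure Family (N : ClosedManifold) where
  /-- the set of indices -/
  Idx : Type
  /-- the domains -/
  dom : Idx → Set N
  /-- the maps (the values outside the domains are irrelevant) -/
  map : Idx → N → R3
  isOpen_dom : ∀ j, IsOpen (dom j)
  submersion : ∀ j, ∀ y ∈ dom j, Submersion (map j) y
  compatible : ∀ j k, ∀ y ∈ dom j, y ∈ dom k →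
    Transversal (map j) (map k) y ∨ SameFibres (map j) (map k) y

/-- three coordinates of `g` near `x`, given by a member of the family near `g x`, are of class `C^1`
with independent derivatives -/
def ThreeC1 {M N : ClosedManifold} (𝓕 : Family N) (g : M → N) (x : M) : Prop :=
  ∃ j, g x ∈ 𝓕.dom j ∧ Submersion (fun z => 𝓕.map j (g z)) x

/-- `g` is a limit of diffeomorphisms: every open neighbourhood of its graph contains the graph of a
diffeomorphism. -/
def LimitOfDiffeomorphisms (M N : ClosedManifold) (g : M → N) : Prop :=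
  ∀ O : Set (M × N), IsOpen O → GraphIn g O →
    ∃ Φ : Diffeomorph (𝓡 4) (𝓡 4) M N ∞, GraphIn Φ O

theorem fam {N : ClosedManifold} (𝓕 : Family N) :
    letI : ChartedSpace (Run7.h7.E (3 + 1)) N := N.chart
    Run7.h7.Fam 3 𝓕.dom 𝓕.map :=
  letI : ChartedSpace (Run7.h7.E (3 + 1)) N := N.chart
  ⟨𝓕.isOpen_dom, fun j y hy => ⟨(𝓕.submersion j y hy).1.self_of_nhds, (𝓕.submersion j y hy).2⟩,
    𝓕.compatible⟩

theorem first (M N : ClosedManifold) (g : M ≃ₜ N) (𝓕 : Family N)
    (hg : ∀ x, LocDiff g x ∨ C1CorankOne g x ∨ ThreeC1 𝓕 g x) : LimitOfDiffeomorphisms M N g := by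
  intro O hO hgO
  let _ : ChartedSpace (Run7.h7.E (3 + 1)) M := M.chart
  let _ : ChartedSpace (Run7.h7.E (3 + 1)) N := N.chart
  have : IsManifold (𝓡 (3 + 1)) ∞ M := M.smooth
  have : IsManifold (𝓡 (3 + 1)) ∞ N := N.smooth
  have := M.compact
  have := M.hausdorff
  obtain ⟨F, C, hC, hF, hd, hG, hoff⟩ := Run7.h7.qmixed (m := 3) (by norm_num) g (fam 𝓕)
    (fun x => by
      rcases hg x with h | ⟨h1, h2⟩ | ⟨j, h1, h2⟩
      · exact Or.inl h
      · exact Or.inr (Or.inl ⟨h1.self_of_nhds, Run7.h7.K1_of_rank (Nat.succ_le_succ h2)⟩)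
      · exact Or.inr (Or.inr ⟨j, h1, h2.1.self_of_nhds, h2.2⟩))
    (Run7.h7.isClosed_bad _).isCompact hO hgO
  have hl : IsLocalDiffeomorph (𝓡 4) (𝓡 4) ∞ F := hd
  exact ⟨hl.diffeomorphOfBijective hF, hG⟩

theorem second (M N : ClosedManifold) (g : M ≃ₜ N) (B : Manifold3) (p : M → B) (q : N → B)
    (hpq : ∀ x, q (g x) = p x)
    (hg : ∀ x, LocDiff g x ∨ C1CorankOne g x ∨ (Submersion p x ∧ Submersion q (g x))) :
    LimitOfDiffeomorphisms M N g := by
  intro O hO hgO
  let _ : ChartedSpace (Run7.h7.E (3 + 1)) M := M.chart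
  let _ : ChartedSpace (Run7.h7.E (3 + 1)) N := N.chart
  have : IsManifold (𝓡 (3 + 1)) ∞ M := M.smooth
  have : IsManifold (𝓡 (3 + 1)) ∞ N := N.smooth
  have := B.smooth
  have := M.compact
  have := M.hausdorff
  obtain rfl : p = fun x => q (g x) := funext fun x => (hpq x).symm
  obtain ⟨F, C, hC, hF, hd, hG, hoff⟩ := Run7.h7.qmixedB (m := 3) (by norm_num) g q
    (fun x => by
      rcases hg x with h | ⟨h1, h2⟩ | ⟨h1, h2⟩
      · exact Or.inl h
      · exact Or.inr (Or.inl ⟨h1.self_of_nhds, Run7.h7.K1_of_rank (Nat.succ_le_succ h2)⟩)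
      · exact Or.inr (Or.inr ⟨h2, h1⟩))
    (Run7.h7.isClosed_bad _).isCompact hO hgO
  have hl : IsLocalDiffeomorph (𝓡 4) (𝓡 4) ∞ F := hd
  exact ⟨hl.diffeomorphOfBijective hF, hG⟩

theorem result (M N : ClosedManifold) (g : M ≃ₜ N) :
    ((∃ 𝓕 : Family N, ∀ x, LocDiff g x ∨ C1CorankOne g x ∨ ThreeC1 𝓕 g x) →
      LimitOfDiffeomorphisms M N g ∧ Nonempty (Diffeomorph (𝓡 4) (𝓡 4) M N ∞)) ∧
    ((∃ (B : Manifold3) (p : M → B) (q : N → B), (∀ x, q (g x) = p x) ∧
        ∀ x, LocDiff g x ∨ C1CorankOne g x ∨ (Submersion p x ∧ Submersion q (g x))) →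
      LimitOfDiffeomorphisms M N g ∧ Nonempty (Diffeomorph (𝓡 4) (𝓡 4) M N ∞)) := by
  constructor
  · rintro ⟨𝓕, hg⟩
    have h := first M N g 𝓕 hg
    obtain ⟨Φ, -⟩ := h univ isOpen_univ (fun _ => mem_univ _)
    exact ⟨h, ⟨Φ⟩⟩
  · rintro ⟨B, p, q, hpq, hg⟩
    have h := second M N g B p q hpq hg
    obtain ⟨Φ, -⟩ := h univ isOpen_univ (fun _ => mem_univ _)
    exact ⟨h, ⟨Φ⟩⟩

end Pool.Agent.Results.MP_cb9bff_gt.TransverselyC1
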